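import Pool.Agent.H83.D3N.Targets

/-!
# Row H6 of obk_modules (MP_ee74d2_an): the total number of packets in a ball of radius `D ρ²`
-/

set_option autoImplicit false

namespace Pool.Agent.H63.D3N.H6

open Pool.Agent.H83.D3N
open Pool.Agent.H83.G (Z E TF TP Lo ctr IsPU Sep ph)
open Pool.Agent.H83.LS (BCd EE)
open Pool.Agent.H81.GT (tz SymE IsX Gf)
open Pool.Agent.H92.EZ (sgm dsg ldz T_EZ)

theorem fam_mono {β : E 2 → ℂ} {G : Z 2 → ℂ} {h ρ K₁ : ℝ} {P Q : Finset Tp}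
    (hP : Fam β G h ρ K₁ P) (hQ : Q ⊆ P) : Fam β G h ρ K₁ Q where
  pk := fun p hp => hP.pk p (hQ hp)
  eta := fun p hp => hP.eta p (hQ hp)
  tag := fun p hp => hP.tag p (hQ hp)
  sepP := fun p hp p' hp' => hP.sepP p (hQ hp) p' (hQ hp')

theorem tz_le (z : Z 2) : |tz z| ≤ 2 * ‖z‖ := by
  unfold tz
  have h1 : |z.1| ≤ ‖z‖ := by
    rw [Prod.norm_def]
    exact le_max_left _ _
  have h2 : |z.2.2| ≤ ‖z‖ := by
    rw [Prod.norm_def, Prod.norm_def]
    exact (le_max_right _ _).trans (le_max_right _ _)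
  have h3 := abs_add_le z.1 z.2.2
  linarith

theorem pf_H6 (hCEL : T_CEL) (hEZS : T_EZS) : T_H6 := by
  intro κ δ β a Xc χ hκ ha hX hβ hδ
  obtain ⟨C1, hC1, h1⟩ := hCEL
  obtain ⟨C2, hC2, h2⟩ := hEZS κ δ β a Xc χ hκ ha hX hβ hδ
  refine ⟨C1 * C2, one_le_mul_of_one_le_of_one_le hC1 hC2, ?_⟩
  intro R A D ρ K₁ h z₀ f P hR hf hA hD hρ hDR hK₁ hz₀ hh hAh hP hPz
  have hR2 : C2 ≤ R := by
    have : 1 * C2 ≤ C1 * C2 := mul_le_mul_of_nonneg_right hC1 (by linarith)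
    linarith
  have hR0 : 0 < R := by linarith
  have hρ2 : 0 < ρ ^ 2 := by positivity
  have hρR : ρ ^ 2 ≤ R := by
    have h3 : 1 * ρ ^ 2 ≤ 300 * D * ρ ^ 2 := mul_le_mul_of_nonneg_right (by linarith) hρ2.le
    linarith
  have hB : 0 ≤ C2 * R ^ δ * (A ^ 2 * R ^ 2) / h ^ 2 := by
    have := Real.rpow_nonneg hR0.le δ
    positivity
  have hmain := h1 D ρ (C2 * R ^ δ * (A ^ 2 * R ^ 2) / h ^ 2) z₀ P hD hρ hB hPz (by
    intro z₁ hz₁ Q hQ hQ2
    rw [le_div_iff₀ (by positivity)]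
    have htz : |tz z₁| ≤ 4 * R := by
      have e1 : tz z₁ = tz z₀ + tz (z₁ - z₀) := by
        unfold tz
        simp only [Prod.fst_sub, Prod.snd_sub]
        ring
      rw [e1]
      have e2 := abs_add_le (tz z₀) (tz (z₁ - z₀))
      have e3 := tz_le (z₁ - z₀)
      linarith
    have hb : ‖((0, 0, 1 / 2) : Z 2)‖ = 1 / 2 := by
      rw [Prod.norm_def, Prod.norm_def]
      simp
    have h3 := h2 R A ρ 1 K₁ h 0 0 (0, 0, 1 / 2) z₁ f Q hR2 hf hA hρ hρR le_rfl hρ hK₁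
      (by rw [abs_zero]; positivity) (by rw [hb]; norm_num) (Or.inr (by rw [hb])) htz hh hAh
      (fam_mono hP hQ) (by
        intro p hp
        obtain ⟨q1, q2, q3⟩ := hQ2 p hp
        refine ⟨by linarith, ?_, ?_⟩
        · have e1 : sgm 0 ((0, 0, 1 / 2) : Z 2) 0 (p.2.2 - z₁) = (p.2.2 - z₁).2.2 / 2 := by
            unfold sgm ph
            simp
            ring
          rw [e1, div_one, abs_of_nonneg (by linarith)]
          linarith
        · have e1 : dsg 0 ((0, 0, 1 / 2) : Z 2) (p.2.2 - z₁) (ea ρ p) = 1 / 2 := by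
            unfold dsg ph ldz
            simp
          rw [e1]
          norm_num)
    rw [Real.sqrt_one, div_one] at h3
    exact h3)
  have hh2 : 0 < h ^ 2 := by positivity
  calc (P.card : ℝ) * h ^ 2
      ≤ (C1 * D ^ 4 * (C2 * R ^ δ * (A ^ 2 * R ^ 2) / h ^ 2)) * h ^ 2 :=
        mul_le_mul_of_nonneg_right hmain hh2.le
    _ = C1 * C2 * R ^ δ * D ^ 4 * (A ^ 2 * R ^ 2) := by
        field_simp

end Pool.Agent.H63.D3N.H6
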